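import Pool.Agent.Helper38.RS.Goals1

/-!
# RS-SQR: square roots of `a ≡ 1 mod 8`
-/

namespace Pool.Agent.Helper96.RS

open NumberField

theorem step {R : Type} [CommRing R] (a s : R) (N : ℕ) (h1 : (2 : R) ^ (N + 3) ∣ s ^ 2 - a)
    (h2 : (4 : R) ∣ s - 1) :
    ∃ t : R, (2 : R) ^ (N + 1 + 3) ∣ t ^ 2 - a ∧ (4 : R) ∣ t - 1 ∧ (2 : R) ^ (N + 2) ∣ t - s := by
  obtain ⟨e, he⟩ := h1
  obtain ⟨f, hf⟩ := h2
  refine ⟨s - 2 ^ (N + 2) * e, ⟨-(2 * e * f) + 2 ^ N * e ^ 2, ?_⟩, ⟨f - 2 ^ N * e, ?_⟩, ⟨-e, ?_⟩⟩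
  · have h : (s - 2 ^ (N + 2) * e) ^ 2 - a
        = (s ^ 2 - a) - 2 ^ (N + 3) * e * (s - 1) - 2 ^ (N + 3) * e + 2 ^ (N + 2) * 2 ^ (N + 2) * e ^ 2 := by
      ring
    rw [h, he, hf]
    ring
  · have h : s - 2 ^ (N + 2) * e - 1 = (s - 1) - 2 ^ (N + 2) * e := by ring
    rw [h, hf]
    ring
  · ring

theorem seq {R : Type} [CommRing R] (a : R) (ha : (8 : R) ∣ a - 1) :
    ∃ s : ℕ → R, (∀ N, (2 : R) ^ (N + 3) ∣ s N ^ 2 - a) ∧ (∀ N, (2 : R) ^ (N + 2) ∣ s (N + 1) - s N) ∧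
      ∀ N, (4 : R) ∣ s N - 1 := by
  classical
  choose! t ht using fun (N : ℕ) (s : R) => step a s N
  let s : ℕ → R := fun n => Nat.rec 1 (fun N x => t N x) n
  have h0 : s 0 = 1 := rfl
  have hs : ∀ N, s (N + 1) = t N (s N) := fun N => rfl
  have key : ∀ N, (2 : R) ^ (N + 3) ∣ s N ^ 2 - a ∧ (4 : R) ∣ s N - 1 := by
    intro N
    induction N with
    | zero =>
      rw [h0]
      refine ⟨?_, by simp⟩
      have h8 : (2 : R) ^ (0 + 3) = 8 := by norm_num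
      rw [h8, ← neg_sub, dvd_neg]
      simpa using ha
    | succ N ih =>
      rw [hs N]
      exact ⟨(ht N (s N) ih.1 ih.2).1, (ht N (s N) ih.1 ih.2).2.1⟩
  refine ⟨s, fun N => (key N).1, fun N => ?_, fun N => (key N).2⟩
  rw [hs N]
  exact (ht N (s N) (key N).1 (key N).2).2.2

/-- **S_SQR.** -/
theorem s_sqr : Pool.Agent.Helper38.RS.S_SQR := by
  intro K _ _ a ha
  obtain ⟨s, h1, h2, h3⟩ := seq a ha
  exact ⟨s, fun N => (pow_dvd_pow 2 (Nat.le_add_right N 3)).trans (h1 N),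
    fun N => (pow_dvd_pow 2 (Nat.le_add_right N 2)).trans (h2 N), h3⟩

end Pool.Agent.Helper96.RS
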